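import Pool.Agent.N245.DS.RP
import Pool.Agent.N530.SR.Geo

set_option autoImplicit false

/-!
# Project DS (helper245): projective planes of revolution from spheres of revolution (helper572)
-/

open MeasureTheory Set

namespace Pool.Agent.N572.DS

open Pool.Agent.N295.SR (E3 len gdist disc doubling Eigen Admissible)
open Pool.Agent.N245.DS

/-- the lengths of the curves from `p` to `q` -/
def SL (ρ : ℝ → ℝ) (p q : E3) : Set ℝ := {l : ℝ | ∃ γ : ℝ → E3, ContDiff ℝ 1 γ ∧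
  (∀ s, ‖γ s‖ = 1) ∧ γ 0 = p ∧ γ 1 = q ∧ l = len ρ γ}

theorem SL_nonempty (ρ : ℝ → ℝ) {p q : E3} (hp : ‖p‖ = 1) (hq : ‖q‖ = 1) :
    (SL ρ p q).Nonempty := by
  obtain ⟨γ, α, h1, h2, h3, h4, -⟩ := Pool.Agent.N530.SR.curve p q hp hq
  exact ⟨_, γ, h1, h2, h3, h4, rfl⟩

theorem SL_bdd (ρ : ℝ → ℝ) (p q : E3) : BddBelow (SL ρ p q) := Pool.Agent.N530.SR.bdd ρ p q

theorem gdist_eq (ρ : ℝ → ℝ) (p q : E3) : gdist ρ p q = sInf (SL ρ p q) := rfl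

theorem pdist_eq (ρ : ℝ → ℝ) {p q : E3} (hp : ‖p‖ = 1) (hq : ‖q‖ = 1) :
    pdist ρ p q = min (gdist ρ p q) (gdist ρ p (-q)) := by
  have hq' : ‖-q‖ = 1 := by rw [norm_neg, hq]
  rw [gdist_eq, gdist_eq, ← csInf_union (SL_bdd ρ p q) (SL_nonempty ρ hp hq) (SL_bdd ρ p (-q))
    (SL_nonempty ρ hp hq')]
  unfold pdist
  congr 1
  ext l
  constructor
  · rintro ⟨γ, h1, h2, h3, h4 | h4, h5⟩
    · exact Or.inl ⟨γ, h1, h2, h3, h4, h5⟩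
    · exact Or.inr ⟨γ, h1, h2, h3, h4, h5⟩
  · rintro (⟨γ, h1, h2, h3, h4, h5⟩ | ⟨γ, h1, h2, h3, h4, h5⟩)
    · exact ⟨γ, h1, h2, h3, Or.inl h4, h5⟩
    · exact ⟨γ, h1, h2, h3, Or.inr h4, h5⟩

theorem len_neg {ρ : ℝ → ℝ} (hρ : ∀ z, ρ (-z) = ρ z) {γ : ℝ → E3} (h : ContDiff ℝ 1 γ) :
    len ρ (fun s => -γ s) = len ρ γ := by
  unfold Pool.Agent.N295.SR.len
  refine intervalIntegral.integral_congr fun s _ => ?_
  have h5 : HasDerivAt γ (deriv γ s) s :=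
    (h.differentiable one_ne_zero).differentiableAt.hasDerivAt
  have h6 : HasDerivAt (fun s => -γ s) (-(deriv γ s)) s := h5.neg
  have h7 : (-γ s) 2 = -(γ s 2) := rfl
  show Real.sqrt (ρ ((-γ s) 2)) * ‖deriv (fun s => -γ s) s‖ =
    Real.sqrt (ρ (γ s 2)) * ‖deriv γ s‖
  rw [h6.deriv, norm_neg, h7, hρ]

theorem SL_neg {ρ : ℝ → ℝ} (hρ : ∀ z, ρ (-z) = ρ z) {p q : E3} {l : ℝ} (h : l ∈ SL ρ p q) :
    l ∈ SL ρ (-p) (-q) := by
  obtain ⟨γ, h1, h2, h3, h4, h5⟩ := h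
  refine ⟨fun s => -γ s, h1.neg, fun s => by rw [norm_neg, h2], congrArg Neg.neg h3,
    congrArg Neg.neg h4, ?_⟩
  rw [len_neg hρ h1, h5]

theorem gdist_neg {ρ : ℝ → ℝ} (hρ : ∀ z, ρ (-z) = ρ z) (p q : E3) :
    gdist ρ (-p) (-q) = gdist ρ p q := by
  rw [gdist_eq, gdist_eq]
  congr 1
  ext l
  constructor
  · intro h
    have := SL_neg hρ h
    rwa [neg_neg, neg_neg] at this
  · exact SL_neg hρ

theorem mem_disc_neg {ρ : ℝ → ℝ} (hρ : ∀ z, ρ (-z) = ρ z) (p q : E3) (r : ℝ) :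
    q ∈ disc ρ (-p) r ↔ -q ∈ disc ρ p r := by
  show (‖q‖ = 1 ∧ gdist ρ (-p) q < r) ↔ (‖-q‖ = 1 ∧ gdist ρ p (-q) < r)
  rw [norm_neg, ← gdist_neg hρ p (-q), neg_neg]

theorem mem_pdisc {ρ : ℝ → ℝ} (hρ : ∀ z, ρ (-z) = ρ z) {p : E3} (hp : ‖p‖ = 1) (q : E3) (r : ℝ) :
    q ∈ pdisc ρ p r ↔ q ∈ disc ρ p r ∨ q ∈ disc ρ (-p) r := by
  rw [mem_disc_neg hρ]
  show (‖q‖ = 1 ∧ pdist ρ p q < r) ↔
    (‖q‖ = 1 ∧ gdist ρ p q < r) ∨ (‖-q‖ = 1 ∧ gdist ρ p (-q) < r)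
  rw [norm_neg, ← and_or_left]
  constructor
  · rintro ⟨h1, h2⟩
    rw [pdist_eq ρ hp h1, min_lt_iff] at h2
    exact ⟨h1, h2⟩
  · rintro ⟨h1, h2⟩
    refine ⟨h1, ?_⟩
    rw [pdist_eq ρ hp h1, min_lt_iff]
    exact h2

theorem image_pdisc {ρ : ℝ → ℝ} (hρ : ∀ z, ρ (-z) = ρ z) {φ : E3 → ℝ} (hφ : ∀ p, φ (-p) = φ p)
    {p : E3} (hp : ‖p‖ = 1) (r : ℝ) :
    (fun q => |φ q|) '' pdisc ρ p r = (fun q => |φ q|) '' disc ρ p r := by
  apply Subset.antisymm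
  · rintro _ ⟨q, hq, rfl⟩
    rcases (mem_pdisc hρ hp q r).1 hq with h | h
    · exact ⟨q, h, rfl⟩
    · refine ⟨-q, (mem_disc_neg hρ p q r).1 h, ?_⟩
      show |φ (-q)| = |φ q|
      rw [hφ]
  · rintro _ ⟨q, hq, rfl⟩
    exact ⟨q, (mem_pdisc hρ hp q r).2 (Or.inl hq), rfl⟩

theorem image_disc_neg {ρ : ℝ → ℝ} (hρ : ∀ z, ρ (-z) = ρ z) {φ : E3 → ℝ}
    (hφ : ∀ p, φ (-p) = φ p) (p : E3) (r : ℝ) :
    (fun q => |φ q|) '' disc ρ (-p) r = (fun q => |φ q|) '' disc ρ p r := by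
  apply Subset.antisymm
  · rintro _ ⟨q, hq, rfl⟩
    refine ⟨-q, (mem_disc_neg hρ p q r).1 hq, ?_⟩
    show |φ (-q)| = |φ q|
    rw [hφ]
  · rintro _ ⟨q, hq, rfl⟩
    refine ⟨-q, (mem_disc_neg hρ p (-q) r).2 (by rwa [neg_neg]), ?_⟩
    show |φ (-q)| = |φ q|
    rw [hφ]

theorem pdoubling_eq {ρ : ℝ → ℝ} (hρ : ∀ z, ρ (-z) = ρ z) {φ : E3 → ℝ} (hφ : ∀ p, φ (-p) = φ p)
    {p : E3} (hp : ‖p‖ = 1) (r : ℝ) : pdoubling ρ φ p r = doubling ρ φ p r := by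
  unfold pdoubling Pool.Agent.N295.SR.doubling
  rw [image_pdisc hρ hφ hp, image_pdisc hρ hφ hp]

theorem doubling_neg {ρ : ℝ → ℝ} (hρ : ∀ z, ρ (-z) = ρ z) {φ : E3 → ℝ} (hφ : ∀ p, φ (-p) = φ p)
    (p : E3) (r : ℝ) : doubling ρ φ (-p) r = doubling ρ φ p r := by
  unfold Pool.Agent.N295.SR.doubling
  rw [image_disc_neg hρ hφ, image_disc_neg hρ hφ]

/-- the centers and their antipodes -/
def cc {ι : Type} (c : ι → E3) (x : ι × Bool) : E3 := if x.2 then c x.1 else -c x.1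

theorem adm {ρ : ℝ → ℝ} (hρ : ∀ z, ρ (-z) = ρ z) {lam : ℝ} {φ : E3 → ℝ} (hφ : ∀ p, φ (-p) = φ p)
    {C C₁ C₂ : ℝ} (hC₂ : 0 < C₂) {ι : Type} [Fintype ι] {c : ι → E3}
    (h : PAdmissible ρ lam φ C C₁ C₂ c) : Admissible ρ lam φ C (2 * C₁) (2 * C₂) (cc c) := by
  have hcard : (Fintype.card (ι × Bool) : ℝ) = Fintype.card ι * 2 := by
    rw [Fintype.card_prod, Fintype.card_bool]
    push_cast
    ring
  have hc0 : (0 : ℝ) ≤ Fintype.card ι := Nat.cast_nonneg _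
  refine ⟨?_, ?_, ?_, ?_, ?_, ?_⟩
  · rintro ⟨i, b⟩
    cases b
    · show ‖-c i‖ = 1
      rw [norm_neg, h.mem]
    · exact h.mem i
  · intro q hq
    obtain ⟨i, hi⟩ := h.cover q hq
    rcases (mem_pdisc hρ (h.mem i) q _).1 hi with h1 | h1
    · exact ⟨(i, true), h1⟩
    · exact ⟨(i, false), h1⟩
  · rw [hcard, mul_inv, mul_assoc]
    have h1 := h.lower
    norm_num
    linarith
  · rw [hcard]
    have h1 := h.upper
    linarith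
  · intro q hq
    have h1 := h.mult q hq
    have h2 : {x : ι × Bool | q ∈ disc ρ (cc c x) (C / Real.sqrt lam)} ⊆
        {i | q ∈ pdisc ρ (c i) (C / Real.sqrt lam)} ×ˢ (univ : Set Bool) := by
      rintro ⟨i, b⟩ hx
      refine ⟨?_, mem_univ _⟩
      show q ∈ pdisc ρ (c i) (C / Real.sqrt lam)
      rw [mem_pdisc hρ (h.mem i)]
      cases b
      · exact Or.inr hx
      · exact Or.inl hx
    have h3 := ncard_le_ncard h2 (toFinite _)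
    rw [ncard_prod, ncard_univ, Nat.card_eq_fintype_card, Fintype.card_bool] at h3
    have h4 : ({x : ι × Bool | q ∈ disc ρ (cc c x) (C / Real.sqrt lam)}.ncard : ℝ) ≤
        ({i | q ∈ pdisc ρ (c i) (C / Real.sqrt lam)}.ncard : ℝ) * 2 := by exact_mod_cast h3
    linarith
  · rintro ⟨i, b⟩
    cases b
    · show φ (-c i) = 0
      rw [hφ, h.zero]
    · exact h.zero i

/-- RP -/
theorem rp : Pool.Agent.N295.SR.S_MAIN → Pool.Agent.N245.DS.S_RP := by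
  intro hM ρ hc hpos hρ C C₁ C₂ hC hC₁ hC₂
  obtain ⟨A, hA, hmain⟩ := hM ρ hc hpos C (2 * C₁) (2 * C₂) hC (by linarith) (by linarith)
  refine ⟨A, hA, ?_⟩
  intro lam φ hE hφ ι _ c hP
  have h1 := hmain lam φ hE (ι × Bool) (cc c) (adm hρ hφ hC₂ hP)
  have h2 : ∑ x : ι × Bool, doubling ρ φ (cc c x) (C / Real.sqrt lam) =
      2 * ∑ i, pdoubling ρ φ (c i) (C / Real.sqrt lam) := by
    rw [Fintype.sum_prod_type, Finset.mul_sum]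
    refine Finset.sum_congr rfl fun i _ => ?_
    rw [Fintype.sum_bool, pdoubling_eq hρ hφ (hP.mem i)]
    show doubling ρ φ (c i) _ + doubling ρ φ (-c i) _ = _
    rw [doubling_neg hρ hφ]
    ring
  have hcard : (Fintype.card (ι × Bool) : ℝ) = 2 * Fintype.card ι := by
    rw [Fintype.card_prod, Fintype.card_bool]
    push_cast
    ring
  rw [h2, hcard, mul_div_mul_left _ _ two_ne_zero] at h1
  exact h1

end Pool.Agent.N572.DS
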